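import Pool.Agent.Y803.SEL.Stm
import Pool.Agent.Y800.Frob2

/-!
# Auxiliary primes by Chebotarev
-/

set_option autoImplicit false

open NumberField Filter Topology

namespace Pool.Agent.Y419.SEL.Cheb

open Pool.Agent.Y800 Pool.Agent.Y803.SEL


/-! ### automorphisms and roots -/

lemma pow_fix (τ : GQ) (r : ℕ) (z : AlgebraicClosure ℚ) (hz : τ (z ^ r) = z ^ r)
    (hτ : ∀ ζ : AlgebraicClosure ℚ, ζ ^ r = 1 → τ ζ = ζ) : (τ ^ r) z = z := by
  by_cases h0 : z = 0
  · rw [h0, map_zero]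
  set ζ : AlgebraicClosure ℚ := τ z / z with hζ
  have h1 : ζ ^ r = 1 := by
    rw [hζ, div_pow, ← map_pow, hz, div_self (pow_ne_zero _ h0)]
  have h2 : τ z = ζ * z := by rw [hζ, div_mul_cancel₀ _ h0]
  have h3 : ∀ i : ℕ, (τ ^ i) z = ζ ^ i * z := by
    intro i
    induction i with
    | zero => simp
    | succ i ih =>
      rw [pow_succ', AlgEquiv.mul_apply, ih, map_mul, map_pow, hτ ζ h1, h2]
      ring
  rw [h3, h1, one_mul]

lemma fix_pow_of (τ : GQ) (i : ℕ) (z : AlgebraicClosure ℚ) (h : τ z = z) : (τ ^ i) z = z := by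
  induction i with
  | zero => simp
  | succ i ih => rw [pow_succ', AlgEquiv.mul_apply, ih, h]

lemma fix_mu {p : ℕ} (σ : GQ) (hσ : ∀ z : AlgebraicClosure ℚ, z ^ p = 1 → σ z = z) (j : ℕ) :
    ∀ z : AlgebraicClosure ℚ, z ^ p ^ j = 1 → (σ ^ p ^ j) z = z := by
  induction j with
  | zero =>
    intro z hz
    rw [pow_zero, pow_one] at hz
    rw [hz, map_one]
  | succ j ih =>
    intro z hz
    rw [pow_succ, pow_mul]
    refine pow_fix _ _ _ (ih _ ?_) fun ζ hζ => fix_pow_of _ _ _ (hσ ζ hζ)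
    rw [← pow_mul, mul_comm, ← pow_succ]
    exact hz

lemma fix_all {p m : ℕ} (σ : GQ) (hσ : ∀ z : AlgebraicClosure ℚ, z ^ p = 1 → σ z = z) (c : ℕ)
    (z : AlgebraicClosure ℚ) (hz : z ^ p ^ m = c) : (σ ^ (p ^ m * p ^ m)) z = z := by
  rw [pow_mul]
  refine pow_fix _ _ _ ?_ (fix_mu σ hσ m)
  rw [hz, map_natCast]

/-! ### matrices without fixed vectors -/

lemma pow_no_fix {p : ℕ} [Fact p.Prime] {n : ℕ} (B : Matrix (Fin n) (Fin n) (ZMod p))
    (hB : ∀ x : Fin n → ZMod p, B.mulVec x = x → x = 0) (k : ℕ) (x : Fin n → ZMod p)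
    (hx : (B ^ p ^ k).mulVec x = x) : x = 0 := by
  have h1 : (B - 1) ^ p ^ k = B ^ p ^ k - 1 := by
    have h2 : ((Polynomial.X : Polynomial (ZMod p)) - 1) ^ p ^ k = Polynomial.X ^ p ^ k - 1 := by
      have := sub_pow_char_pow (R := Polynomial (ZMod p)) (p := p) (n := k) Polynomial.X 1
      rwa [one_pow] at this
    have h3 := congrArg (Polynomial.aeval B) h2
    simpa using h3
  have h4 : ((B - 1) ^ p ^ k).mulVec x = 0 := by
    rw [h1, Matrix.sub_mulVec, hx, Matrix.one_mulVec, sub_self]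
  have h5 : ∀ (i : ℕ) (y : Fin n → ZMod p), ((B - 1) ^ i).mulVec y = 0 → y = 0 := by
    intro i
    induction i with
    | zero => intro y hy; simpa using hy
    | succ i ih =>
      intro y hy
      rw [pow_succ', ← Matrix.mulVec_mulVec] at hy
      apply ih
      apply hB
      rw [Matrix.sub_mulVec, Matrix.one_mulVec, sub_eq_zero] at hy
      exact hy
  exact h5 _ x h4

/-! ### the reduction of the representation -/

section red

variable {p : ℕ} [Fact p.Prime] {n : ℕ}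

/-- the reduction of a matrix -/
noncomputable def red (A : GL (Fin n) ℤ_[p]) : Matrix (Fin n) (Fin n) (ZMod p) :=
  (A : Matrix (Fin n) (Fin n) ℤ_[p]).map (PadicInt.toZMod (p := p))

lemma red_mul (A B : GL (Fin n) ℤ_[p]) : red (A * B) = red A * red B := by
  unfold red
  rw [Units.val_mul]
  exact Matrix.map_mul

lemma red_one : red (1 : GL (Fin n) ℤ_[p]) = 1 := by
  unfold red
  rw [Units.val_one]
  exact Matrix.map_one _ (map_zero _) (map_one _)

lemma red_pow (A : GL (Fin n) ℤ_[p]) (i : ℕ) : red (A ^ i) = red A ^ i := by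
  induction i with
  | zero => rw [pow_zero, pow_zero, red_one]
  | succ i ih => rw [pow_succ, pow_succ, red_mul, ih]

lemma isOpen_toZMod (c : ZMod p) : IsOpen {z : ℤ_[p] | PadicInt.toZMod z = c} := by
  rw [Metric.isOpen_iff]
  intro z hz
  refine ⟨1, one_pos, fun w hw => ?_⟩
  rw [Metric.mem_ball, dist_eq_norm] at hw
  have h1 : w - z ∈ RingHom.ker (PadicInt.toZMod (p := p)) := by
    rw [PadicInt.ker_toZMod, IsLocalRing.mem_maximalIdeal, PadicInt.mem_nonunits]
    exact hw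
  rw [RingHom.mem_ker, map_sub, sub_eq_zero] at h1
  rw [Set.mem_ofPred_eq] at hz ⊢
  rw [h1, hz]

lemma isOpen_red (B : Matrix (Fin n) (Fin n) (ZMod p)) : IsOpen {A : GL (Fin n) ℤ_[p] | red A = B} := by
  have h1 : {A : GL (Fin n) ℤ_[p] | red A = B} =
      ⋂ i : Fin n, ⋂ j : Fin n, {A : GL (Fin n) ℤ_[p] | PadicInt.toZMod ((A : Matrix _ _ ℤ_[p]) i j) = B i j} := by
    ext A
    simp only [Set.mem_ofPred_eq, Set.mem_iInter]
    constructor
    · intro h i j
      rw [← h]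
      rfl
    · intro h
      ext i j
      exact h i j
  rw [h1]
  refine isOpen_iInter_of_finite fun i => isOpen_iInter_of_finite fun j => ?_
  have h0 : Continuous fun A : GL (Fin n) ℤ_[p] => (A : Matrix (Fin n) (Fin n) ℤ_[p]) :=
    Units.continuous_val
  have h2 : Continuous fun A : GL (Fin n) ℤ_[p] => (A : Matrix (Fin n) (Fin n) ℤ_[p]) i j :=
    h0.matrix_elem i j
  exact (isOpen_toZMod (B i j)).preimage h2

/-- the elements with trivial reduction -/
lemma isOpen_ker (Γ : Subgroup GQ) (hΓ : IsOpen (Γ : Set GQ)) (ρ : Γ →* GL (Fin n) ℤ_[p])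
    (hρ : Continuous ρ) : IsOpen {g : GQ | ∃ h : g ∈ Γ, red (ρ ⟨g, h⟩) = 1} := by
  have h1 : {g : GQ | ∃ h : g ∈ Γ, red (ρ ⟨g, h⟩) = 1} =
      Subtype.val '' {γ : Γ | red (ρ γ) = 1} := by
    ext g
    constructor
    · rintro ⟨h, h2⟩
      exact ⟨⟨g, h⟩, h2, rfl⟩
    · rintro ⟨γ, h2, rfl⟩
      exact ⟨γ.2, h2⟩
  rw [h1]
  exact hΓ.isOpenMap_subtype_val _ ((isOpen_red 1).preimage hρ)

end red

/-! ### the residue field -/

lemma lift_fixed {q : ℕ} [Fact q.Prime] (k : Type) [Field k] (f : ZMod q →+* k) (a : k)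
    (ha : a ^ q = a) : ∃ b : ZMod q, f b = a := by
  classical
  have hq1 : 1 < q := (Fact.out : q.Prime).one_lt
  have hne : (Polynomial.X ^ q - Polynomial.X : Polynomial k) ≠ 0 :=
    FiniteField.X_pow_card_sub_X_ne_zero k hq1
  have hsub : (Finset.univ.image f) ⊆ (Polynomial.X ^ q - Polynomial.X : Polynomial k).roots.toFinset := by
    intro y hy
    obtain ⟨b, _, rfl⟩ := Finset.mem_image.1 hy
    rw [Multiset.mem_toFinset, Polynomial.mem_roots hne, Polynomial.IsRoot.def, Polynomial.eval_sub,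
      Polynomial.eval_pow, Polynomial.eval_X, sub_eq_zero, ← map_pow, ZMod.pow_card]
  have hcard : (Polynomial.X ^ q - Polynomial.X : Polynomial k).roots.toFinset.card ≤ (Finset.univ.image f).card := by
    rw [Finset.card_image_of_injective _ f.injective, Finset.card_univ, ZMod.card]
    refine (Multiset.toFinset_card_le _).trans ?_
    refine (Polynomial.card_roots' _).trans ?_
    rw [FiniteField.X_pow_card_sub_X_natDegree_eq k hq1]
  have heq := Finset.eq_of_subset_of_card_le hsub hcard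
  have hmem : a ∈ (Polynomial.X ^ q - Polynomial.X : Polynomial k).roots.toFinset := by
    rw [Multiset.mem_toFinset, Polynomial.mem_roots hne, Polynomial.IsRoot.def, Polynomial.eval_sub,
      Polynomial.eval_pow, Polynomial.eval_X, sub_eq_zero]
    exact ha
  rw [← heq] at hmem
  obtain ⟨b, _, hb⟩ := Finset.mem_image.1 hmem
  exact ⟨b, hb⟩

/-- an integer -/
lemma isIntegral_root {z : AlgebraicClosure ℚ} {r : ℕ} (hr : 0 < r) {c : ℕ} (hz : z ^ r = c) : IsIntegral ℤ z := by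
  refine IsIntegral.of_pow hr ?_
  rw [hz]
  have h1 : IsIntegral ℤ (algebraMap ℤ (AlgebraicClosure ℚ) (c : ℤ)) := isIntegral_algebraMap
  rwa [map_natCast] at h1

theorem t : Pool.Agent.Y803.SEL.S_CHEB := by
  intro p _ n Γ hΓ ρ hρ N₀ hN₀ σ hσ h2 m
  have hp : p.Prime := Fact.out
  classical
  intro hfin
  set M : ℕ := p ^ m with hM
  have hM0 : 0 < M := pow_pos hp.pos _
  set s1 : GQ := σ ^ (M * M) with hs1
  -- the finite set of algebraic numbers
  set Z : Finset (AlgebraicClosure ℚ) := (insert 1 N₀.primeFactors).biUnion fun c =>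
    (Polynomial.nthRoots M (c : AlgebraicClosure ℚ)).toFinset with hZ
  have hmemZ : ∀ z, z ∈ Z ↔ ∃ c ∈ insert 1 N₀.primeFactors, z ^ M = (c : AlgebraicClosure ℚ) := by
    intro z
    rw [hZ, Finset.mem_biUnion]
    refine exists_congr fun c => and_congr_right fun _ => ?_
    rw [Multiset.mem_toFinset, Polynomial.mem_nthRoots hM0]
  have hZstab : ∀ (g : GQ) (z), z ∈ Z → g z ∈ Z := by
    intro g z hz
    rw [hmemZ] at hz ⊢
    obtain ⟨c, hc, h⟩ := hz
    refine ⟨c, hc, ?_⟩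
    rw [← map_pow, h, map_natCast]
  have hs1Z : ∀ z ∈ Z, s1 z = z := by
    intro z hz
    obtain ⟨c, _, h⟩ := (hmemZ z).1 hz
    exact fix_all σ hσ c z h
  -- the open normal subgroup
  set W : Set GQ := {g : GQ | ∃ h : g ∈ Γ, red (ρ ⟨g, h⟩) = 1} ∩ ⋂ z ∈ Z, {g : GQ | g z = z} with hW
  have hWo : IsOpen W := by
    refine (isOpen_ker Γ hΓ ρ hρ).inter ?_
    refine isOpen_biInter_finset fun z _ => ?_
    have : Algebra.IsIntegral ℚ (AlgebraicClosure ℚ) :=
      (AlgebraicClosure.isAlgebraic ℚ).isIntegral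
    exact stabilizer_isOpen_of_isIntegral (K := ℚ) z
  have hW1 : (1 : GQ) ∈ W := by
    refine ⟨⟨Γ.one_mem, ?_⟩, ?_⟩
    · have : (⟨1, Γ.one_mem⟩ : Γ) = 1 := rfl
      rw [this, map_one, red_one]
    · simp
  obtain ⟨U, hU⟩ := ProfiniteGrp.exist_openNormalSubgroup_sub_open_nhds_of_one hWo hW1
  have hUn : U.toSubgroup.Normal := U.isNormal'
  have hUΓ : ∀ u ∈ U.toSubgroup, ∃ h : u ∈ Γ, red (ρ ⟨u, h⟩) = 1 := fun u hu => (hU hu).1
  have hUZ : ∀ u ∈ U.toSubgroup, ∀ z ∈ Z, u z = z := by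
    intro u hu z hz
    have := (hU hu).2
    rw [Set.mem_iInter₂] at this
    exact this z hz
  -- Chebotarev
  obtain ⟨q, hq, hqS, P, hP, hqP, φ, hφ, τ, hτ⟩ := exists_frob U.toSubgroup U.isOpen'
    (hfin.toFinset ∪ (insert p N₀.primeFactors)) s1⁻¹
  rw [Finset.mem_union, not_or, Finset.mem_insert, not_or] at hqS
  obtain ⟨hq1, hqp, hqN⟩ := hqS
  have hqN' : ¬ q ∣ N₀ := fun h => hqN (Nat.mem_primeFactors.2 ⟨hq, h, hN₀⟩)
  have : Fact q.Prime := ⟨hq⟩
  have hPp : P.IsPrime := hP.isPrime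
  apply hq1
  rw [Set.Finite.mem_toFinset]
  rw [inv_inv] at hτ
  set u : GQ := τ * φ * τ⁻¹ * s1 with hu
  set F : GQ := φ⁻¹ with hF
  have hFx : ∀ x : ZBar, F • x - x ^ q ∈ P := arith_of_geom hφ
  have hFeq : F = τ⁻¹ * s1 * u⁻¹ * τ := by
    rw [hF, hu]
    group
  -- `F` fixes the set
  have hFZ : ∀ z ∈ Z, F z = z := by
    intro z hz
    have h3 : τ z ∈ Z := hZstab τ z hz
    rw [hFeq, AlgEquiv.mul_apply, AlgEquiv.mul_apply, AlgEquiv.mul_apply,
      hUZ _ (U.toSubgroup.inv_mem hτ) _ h3, hs1Z _ h3, ← AlgEquiv.mul_apply, inv_mul_cancel, AlgEquiv.one_apply]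
  have hFint : ∀ z : ZBar, (z : AlgebraicClosure ℚ) ∈ Z → z - z ^ q ∈ P := by
    intro z hz
    have h3 : F • z = z := by
      apply RingOfIntegers.ext
      exact hFZ _ hz
    have := hFx z
    rwa [h3] at this
  have hcop : ∀ r : ℕ, r.Coprime q → (r : ZBar) ∉ P := by
    intro r hr hrP
    apply hP.ne_top
    rw [Ideal.eq_top_iff_one]
    obtain ⟨a, b, hab⟩ := Int.isCoprime_iff_gcd_eq_one.2 (show Int.gcd (r : ℤ) (q : ℤ) = 1 by
      rw [Int.gcd_natCast_natCast]; exact hr)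
    have h3 : (1 : ZBar) = (a : ZBar) * (r : ZBar) + (b : ZBar) * (q : ZBar) := by
      have := congrArg (Int.cast : ℤ → ZBar) hab
      push_cast at this
      exact this.symm
    rw [h3]
    exact P.add_mem (P.mul_mem_left _ hrP) (P.mul_mem_left _ hqP)
  refine ⟨hq, hqN', ?_, ?_, ?_⟩
  · -- congruence
    have : NeZero M := ⟨hM0.ne'⟩
    obtain ⟨ζ, hζ⟩ := HasEnoughRootsOfUnity.exists_primitiveRoot (AlgebraicClosure ℚ) M
    have hζ1 : ζ ^ M = ((1 : ℕ) : AlgebraicClosure ℚ) := by rw [hζ.pow_eq_one, Nat.cast_one]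
    let z : ZBar := ⟨ζ, isIntegral_root hM0 hζ1⟩
    have hzM : z ^ M = 1 := by
      apply RingOfIntegers.ext
      simpa [z] using hζ.pow_eq_one
    have hzZ : (z : AlgebraicClosure ℚ) ∈ Z := (hmemZ _).2 ⟨1, Finset.mem_insert_self _ _, hζ1⟩
    have h3 := hFint z hzZ
    have h4 : 1 - z ^ (q - 1) ∈ P := by
      have h5 : z - z ^ q = z * (1 - z ^ (q - 1)) := by
        rw [mul_sub, mul_one, ← pow_succ', Nat.sub_add_cancel hq.one_lt.le]
      rw [h5] at h3
      rcases hPp.mem_or_mem h3 with h | h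
      · exfalso
        apply hP.ne_top
        rw [Ideal.eq_top_iff_one, ← hzM]
        exact P.pow_mem_of_mem h M hM0
      · exact h
    have h6 : z ^ (q - 1) = 1 := by
      by_contra hne
      set w : ZBar := z ^ (q - 1) with hw
      have hwM : w ^ M = 1 := by rw [hw, ← pow_mul, mul_comm, pow_mul, hzM, one_pow]
      have hsum : ∑ i ∈ Finset.range M, w ^ i = 0 := by
        have h7 := mul_geom_sum w M
        rw [hwM, sub_self] at h7
        rcases mul_eq_zero.1 h7 with h | h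
        · exact absurd (sub_eq_zero.1 h) hne
        · exact h
      have h8 : ∀ i : ℕ, 1 - w ^ i ∈ P := by
        intro i
        have h9 : (1 - w) ∣ 1 - w ^ i := by
          have := sub_dvd_pow_sub_pow (1 : ZBar) w i
          rwa [one_pow] at this
        exact P.mem_of_dvd h9 h4
      have h10 : (M : ZBar) ∈ P := by
        have h11 : (M : ZBar) = ∑ i ∈ Finset.range M, (1 - w ^ i) := by
          rw [Finset.sum_sub_distrib, hsum, sub_zero, Finset.sum_const, Finset.card_range, nsmul_eq_mul, mul_one]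
        rw [h11]
        exact P.sum_mem fun i _ => h8 i
      exact hcop M (Nat.Coprime.pow_left _ ((Nat.coprime_primes hp hq).2 (Ne.symm hqp))) h10
    have h12 : ζ ^ (q - 1) = 1 := by
      have := congrArg (fun y : ZBar => (y : AlgebraicClosure ℚ)) h6
      simpa [z] using this
    have h13 := hζ.dvd_of_pow_eq_one _ h12
    exact ((Nat.modEq_iff_dvd' hq.one_lt.le).2 h13).symm
  · -- powers
    intro l hl hlN
    obtain ⟨α, hα⟩ := IsAlgClosed.exists_pow_nat_eq (l : AlgebraicClosure ℚ) hM0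
    let a : ZBar := ⟨α, isIntegral_root hM0 hα⟩
    have haM : a ^ M = (l : ZBar) := by
      apply RingOfIntegers.ext
      simpa [a] using hα
    have haZ : (a : AlgebraicClosure ℚ) ∈ Z :=
      (hmemZ _).2 ⟨l, Finset.mem_insert_of_mem (Nat.mem_primeFactors.2 ⟨hl, hlN, hN₀⟩), hα⟩
    have h3 := hFint a haZ
    let _ : Field (ZBar ⧸ P) := Ideal.Quotient.field P
    have hq0 : ((q : ℕ) : ZBar ⧸ P) = 0 := by
      have := Ideal.Quotient.eq_zero_iff_mem.2 hqP
      rwa [map_natCast] at this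
    have hchar : CharP (ZBar ⧸ P) q := by
      obtain ⟨r, hr⟩ := CharP.exists (ZBar ⧸ P)
      have h4 : r ∣ q := (CharP.cast_eq_zero_iff (ZBar ⧸ P) r q).1 hq0
      rcases (Nat.dvd_prime hq).1 h4 with h | h
      · exfalso
        subst h
        exact CharP.false_of_nontrivial_of_char_one (R := ZBar ⧸ P)
      · rwa [h] at hr
    have h5 : (Ideal.Quotient.mk P a) ^ q = Ideal.Quotient.mk P a := by
      rw [← map_pow]
      exact ((Ideal.Quotient.mk_eq_mk_iff_sub_mem _ _).2 h3).symm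
    obtain ⟨b, hb⟩ := lift_fixed (ZBar ⧸ P) (ZMod.castHom (dvd_refl q) (ZBar ⧸ P)) _ h5
    refine ⟨b, ?_⟩
    apply (ZMod.castHom (dvd_refl q) (ZBar ⧸ P)).injective
    rw [map_pow, hb, ← map_pow, haM, map_natCast, map_natCast]
  · -- decomposition groups
    intro P' hP' hqP'
    obtain ⟨h, hh⟩ := Pool.Agent.W571.FM.exists_smul P P' hPp hP'.isPrime
      ((Pool.Agent.W571.FM.cm_eq hq hP hqP).trans (Pool.Agent.W571.FM.cm_eq hq hP' hqP').symm)
    have hh' : ∀ x : ZBar, x ∈ P' ↔ h⁻¹ • x ∈ P := hh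
    set g' : GQ := h * τ⁻¹ with hg'
    obtain ⟨hgΓ, hgx⟩ := h2 g'
    set γ : Γ := ⟨g' * σ * g'⁻¹, hgΓ⟩ with hγ
    have hu' : g' * u⁻¹ * g'⁻¹ ∈ U.toSubgroup := hUn.conj_mem _ (U.toSubgroup.inv_mem hτ) _
    obtain ⟨huΓ, hured⟩ := hUΓ _ hu'
    set δ : Γ := ⟨g' * u⁻¹ * g'⁻¹, huΓ⟩ with hδ
    have hval : ((γ ^ (M * M) * δ : Γ) : GQ) = h * F * h⁻¹ := by
      have h3 : ((γ ^ (M * M) * δ : Γ) : GQ) = (g' * σ * g'⁻¹) ^ (M * M) * (g' * u⁻¹ * g'⁻¹) := by
        simp [hγ, hδ]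
      rw [h3, conj_pow, ← hs1, hFeq, hg']
      group
    refine ⟨γ ^ (M * M) * δ, ?_, ?_⟩
    · intro x
      rw [hval, hh', hh', mul_smul, mul_smul, inv_smul_smul]
      have h3 := hFx (h⁻¹ • x)
      constructor
      · intro h4
        have h5 : (h⁻¹ • x) ^ q ∈ P := by
          have := P.sub_mem h4 h3
          rwa [sub_sub_cancel] at this
        exact hPp.mem_of_pow_mem _ h5
      · intro h4
        have := P.add_mem h3 (P.pow_mem_of_mem h4 q hq.pos)
        rwa [sub_add_cancel] at this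
    · intro x hx
      have h3 : red (ρ (γ ^ (M * M) * δ)) = red (ρ γ) ^ (M * M) := by
        rw [map_mul, red_mul, hured, mul_one, map_pow, red_pow]
      have h4 : (red (ρ (γ ^ (M * M) * δ))).mulVec x = x := hx
      rw [h3, hM, ← pow_add] at h4
      exact pow_no_fix (red (ρ γ)) (fun y hy => hgx y hy) (m + m) x h4

end Pool.Agent.Y419.SEL.Cheb
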