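import Pool.Agent.Y803.SEL.Stm

/-!
# Spaces of bounded `p`-adic functions versus their reductions
-/

set_option autoImplicit false

namespace Pool.Agent.Y419.SEL

variable {p : ℕ} [Fact p.Prime] {X : Type} {n : ℕ}

lemma exists_norm (z : ℚ_[p]) (hz : z ≠ 0) : ∃ k : ℤ, ‖z‖ = (p : ℝ) ^ k :=
  ⟨-z.valuation, Padic.norm_eq_zpow_neg_valuation hz⟩

/-- a bounded nonzero function can be scaled to be integral with a unit value -/
lemma scale (f : X → Fin n → ℚ_[p]) (hf0 : f ≠ 0) (hb : ∃ C : ℝ, ∀ x i, ‖f x i‖ ≤ C) :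
    ∃ (k : ℤ) (x₁ : X) (j₁ : Fin n), ‖(p : ℚ_[p]) ^ k * f x₁ j₁‖ = 1 ∧
      ∀ x i, ‖(p : ℚ_[p]) ^ k * f x i‖ ≤ 1 := by
  have hp1 : (1 : ℝ) < p := by exact_mod_cast (Fact.out : p.Prime).one_lt
  obtain ⟨C, hC⟩ := hb
  have h0 : ∃ x i, f x i ≠ 0 := by
    by_contra h
    push Not at h
    exact hf0 (by funext x i; exact h x i)
  obtain ⟨x₀, i₀, hx₀⟩ := h0
  obtain ⟨k₀, hk₀⟩ := exists_norm _ hx₀
  obtain ⟨N, hN⟩ := pow_unbounded_of_one_lt C hp1
  obtain ⟨K, ⟨x₁, j₁, hK⟩, hmax⟩ := Int.exists_greatest_of_bdd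
    (P := fun k : ℤ => ∃ x i, ‖f x i‖ = (p : ℝ) ^ k) ⟨(N : ℤ), by
      rintro k ⟨x, i, hk⟩
      have h1 : (p : ℝ) ^ k < (p : ℝ) ^ (N : ℤ) := by
        rw [← hk, zpow_natCast]
        exact (hC x i).trans_lt hN
      exact ((zpow_lt_zpow_iff_right₀ hp1).1 h1).le⟩ ⟨k₀, x₀, i₀, hk₀⟩
  have hp0 : (0 : ℝ) < p := by linarith
  have hnorm : ∀ z : ℚ_[p], ‖(p : ℚ_[p]) ^ K * z‖ = (p : ℝ) ^ (-K) * ‖z‖ := by
    intro z
    rw [norm_mul, norm_zpow, Padic.norm_p, inv_zpow, zpow_neg]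
  refine ⟨K, x₁, j₁, ?_, fun x i => ?_⟩
  · rw [hnorm, hK, ← zpow_add₀ hp0.ne', neg_add_cancel, zpow_zero]
  · rw [hnorm]
    by_cases hz : f x i = 0
    · rw [hz, norm_zero, mul_zero]
      exact zero_le_one
    · obtain ⟨k, hk⟩ := exists_norm _ hz
      have h1 := hmax k ⟨x, i, hk⟩
      rw [hk, ← zpow_add₀ hp0.ne']
      exact zpow_le_one_of_nonpos₀ hp1.le (by omega)

/-- evaluation at a point as a linear functional -/
def evl (S : Type) [CommSemiring S] (x : X) (j : Fin n) : (X → Fin n → S) →ₗ[S] S where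
  toFun f := f x j
  map_add' _ _ := rfl
  map_smul' _ _ := rfl

lemma key (m : ℕ) : ∀ U : Submodule ℚ_[p] (X → Fin n → ℚ_[p]), FiniteDimensional ℚ_[p] U →
    m ≤ Module.finrank ℚ_[p] U → (∀ f ∈ U, ∃ C : ℝ, ∀ x i, ‖f x i‖ ≤ C) →
    ∃ t : Fin m → X → Fin n → ℤ_[p], (∀ k, (fun x i => ((t k x i : ℤ_[p]) : ℚ_[p])) ∈ U) ∧
      LinearIndependent (ZMod p) (fun k : Fin m => fun x i => PadicInt.toZMod (t k x i)) := by
  induction m with
  | zero =>
    intro U _ _ _
    exact ⟨fun k => k.elim0, fun k => k.elim0, linearIndependent_empty_type⟩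
  | succ m ih =>
    intro U hU hm hb
    have hne : U ≠ ⊥ := by
      rintro rfl
      rw [finrank_bot] at hm
      omega
    obtain ⟨f, hfU, hf0⟩ := Submodule.exists_mem_ne_zero_of_ne_bot hne
    obtain ⟨k, x₁, j₁, h1, hle⟩ := scale f hf0 (hb f hfU)
    let t₀ : X → Fin n → ℤ_[p] := fun x i => ⟨(p : ℚ_[p]) ^ k * f x i, hle x i⟩
    have ht₀ : (fun x i => ((t₀ x i : ℤ_[p]) : ℚ_[p])) ∈ U := by
      have h2 : (fun x i => ((t₀ x i : ℤ_[p]) : ℚ_[p])) = ((p : ℚ_[p]) ^ k) • f := by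
        funext x i
        rfl
      rw [h2]
      exact U.smul_mem _ hfU
    have hunit : PadicInt.toZMod (t₀ x₁ j₁) ≠ 0 := by
      intro h3
      have h4 : t₀ x₁ j₁ ∈ RingHom.ker (PadicInt.toZMod (p := p)) := h3
      rw [PadicInt.ker_toZMod] at h4
      rw [IsLocalRing.mem_maximalIdeal, PadicInt.mem_nonunits] at h4
      exact absurd h1 h4.ne
    let φ : U →ₗ[ℚ_[p]] ℚ_[p] := (evl ℚ_[p] x₁ j₁).comp U.subtype
    let U' : Submodule ℚ_[p] (X → Fin n → ℚ_[p]) := (LinearMap.ker φ).map U.subtype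
    have hU'le : ∀ g ∈ U', g ∈ U ∧ g x₁ j₁ = 0 := by
      rintro g ⟨u, hu, rfl⟩
      exact ⟨u.2, hu⟩
    have hrank : m ≤ Module.finrank ℚ_[p] U' := by
      have h5 : Module.finrank ℚ_[p] U' = Module.finrank ℚ_[p] (LinearMap.ker φ) :=
        Submodule.finrank_map_subtype_eq _ _
      have h6 := LinearMap.finrank_range_add_finrank_ker φ
      have h7 : Module.finrank ℚ_[p] (LinearMap.range φ) ≤ 1 := by
        refine (Submodule.finrank_le _).trans ?_
        rw [Module.finrank_self]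
      omega
    obtain ⟨t, htU, hti⟩ := ih U' inferInstance hrank (fun g hg => hb g (hU'le g hg).1)
    refine ⟨Fin.cons t₀ t, fun l => ?_, ?_⟩
    · refine Fin.cases ?_ (fun l => ?_) l
      · exact ht₀
      · exact (hU'le _ (htU l)).1
    · have h8 : (fun l : Fin (m + 1) => fun x i =>
          PadicInt.toZMod ((Fin.cons t₀ t : Fin (m + 1) → X → Fin n → ℤ_[p]) l x i)) =
          (Fin.cons (fun x i => PadicInt.toZMod (t₀ x i)) (fun l : Fin m => fun x i =>
            PadicInt.toZMod (t l x i)) : Fin (m + 1) → X → Fin n → ZMod p) := by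
        funext l
        refine Fin.cases ?_ (fun l => ?_) l
        · rfl
        · rfl
      rw [h8, linearIndependent_finCons]
      refine ⟨hti, fun hmem => hunit ?_⟩
      have h9 : Submodule.span (ZMod p) (Set.range fun l : Fin m => fun x i => PadicInt.toZMod (t l x i)) ≤
          LinearMap.ker (evl (ZMod p) x₁ j₁ : (X → Fin n → ZMod p) →ₗ[ZMod p] ZMod p) := by
        rw [Submodule.span_le]
        rintro _ ⟨l, rfl⟩
        have h10 := (hU'le _ (htU l)).2
        have h11 : t l x₁ j₁ = 0 := by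
          apply Subtype.ext
          simpa using h10
        show PadicInt.toZMod (t l x₁ j₁) = 0
        rw [h11, map_zero]
      exact h9 hmem

theorem t : Pool.Agent.Y803.SEL.S_LAT := by
  intro p _ X n E R hb hR hER
  have h1 : ∀ s : Finset E, (LinearIndependent ℚ_[p] fun i : s => (i : E)) →
      s.card ≤ Module.finrank (ZMod p) R := by
    intro s hs
    have h2 : LinearIndependent ℚ_[p] (fun i : s => ((i : E) : X → Fin n → ℚ_[p])) :=
      hs.map' E.subtype (Submodule.ker_subtype E)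
    have h3 := finrank_span_eq_card h2
    rw [Fintype.card_coe] at h3
    have hfd : FiniteDimensional ℚ_[p] (Submodule.span ℚ_[p]
        (Set.range fun i : s => ((i : E) : X → Fin n → ℚ_[p]))) :=
      FiniteDimensional.span_of_finite _ (Set.finite_range _)
    have hle : Submodule.span ℚ_[p] (Set.range fun i : s => ((i : E) : X → Fin n → ℚ_[p])) ≤ E := by
      rw [Submodule.span_le]
      rintro _ ⟨i, rfl⟩
      exact (i : E).2
    obtain ⟨t, ht, hti⟩ := key s.card _ hfd h3.ge (fun f hf => hb f (hle hf))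
    have h4 : LinearIndependent (ZMod p) (fun k : Fin s.card =>
        (⟨fun x i => PadicInt.toZMod (t k x i), hER _ (hle (ht k))⟩ : R)) := by
      refine LinearIndependent.of_comp R.subtype ?_
      exact hti
    have h5 := h4.fintype_card_le_finrank
    rwa [Fintype.card_fin] at h5
  have h6 : Module.rank ℚ_[p] E ≤ (Module.finrank (ZMod p) R : ℕ) := rank_le h1
  refine ⟨?_, Module.finrank_le_of_rank_le h6⟩
  exact Module.rank_lt_aleph0_iff.1 (h6.trans_lt Cardinal.natCast_lt_aleph0)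

end Pool.Agent.Y419.SEL
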